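import Pool.Agent.helper19.AR.Defs2

/-! # AR project, module LL: the layer lemma -/

set_option autoImplicit false

namespace Pool.Agent.helper19.AR

theorem LL_ball_mono {α : Type} [DecidableEq α] (out : α → Finset α) (y : α) {i j : ℕ} (h : i ≤ j) :
    ball out y i ⊆ ball out y j := by
  induction h with
  | refl => exact subset_rfl
  | step _ ih => exact ih.trans Finset.subset_union_left

theorem LL_mem_ball {α : Type} [DecidableEq α] (out : α → Finset α) (y : α) (i : ℕ) :
    y ∈ ball out y i :=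
  LL_ball_mono out y (Nat.zero_le i) (Finset.mem_singleton_self y)

theorem LL_out_sub {α : Type} [DecidableEq α] (out : α → Finset α) (y : α) (i : ℕ) {v : α}
    (hv : v ∈ ball out y i) : out v ⊆ ball out y (i + 1) := fun _ hw =>
  Finset.mem_union_right _ (Finset.mem_biUnion.2 ⟨v, hv, hw⟩)

/-- the maximal vertex of a ball: its out-neighbours are in the next layer -/
theorem LL_top {α : Type} [DecidableEq α] (r : ℕ) (V Z : Finset α)
    (out : α → Finset α) (rk : α → ℕ) (hD : Dag r V Z out rk) (y : α) (i : ℕ)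
    (hb : ∀ x ∈ ball out y i, x ∈ V ∧ x ∉ Z) :
    ∃ v ∈ ball out y i, (∀ w ∈ ball out y i, rk w ≤ rk v) ∧ out v ⊆ lay out y (i + 1) := by
  obtain ⟨v, hv, hmax⟩ := Finset.exists_max_image (ball out y i) rk ⟨y, LL_mem_ball out y i⟩
  refine ⟨v, hv, hmax, fun w hw => ?_⟩
  refine Finset.mem_sdiff.2 ⟨LL_out_sub out y i hv hw, fun hwb => ?_⟩
  have h1 := hD.rk_lt v (hb v hv).1 (hb v hv).2 w hw
  exact absurd (hmax w hwb) (not_le.2 h1)

/-- module LL: the layer lemma -/
theorem LL {α : Type} [DecidableEq α] (r : ℕ) (V Z : Finset α)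
    (out : α → Finset α) (rk : α → ℕ) (hD : Dag r V Z out rk) (y : α) (i : ℕ)
    (hb : ∀ x ∈ ball out y i, x ∈ V ∧ x ∉ Z) :
    r ≤ (lay out y (i + 1)).card ∧
    ((lay out y (i + 1)).card = r → ∀ x ∈ lay out y (i + 1), ∀ w ∈ ball out y i, rk w < rk x) ∧
    r * i + 1 ≤ (ball out y i).card := by
  obtain ⟨v, hv, hmax, hout⟩ := LL_top r V Z out rk hD y i hb
  have hcard := hD.out_card v (hb v hv).1 (hb v hv).2
  refine ⟨hcard ▸ Finset.card_le_card hout, fun he x hx w hw => ?_, ?_⟩
  · have h1 : out v = lay out y (i + 1) := Finset.eq_of_subset_of_card_le hout (by rw [he, hcard])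
    rw [← h1] at hx
    exact (hmax w hw).trans_lt (hD.rk_lt v (hb v hv).1 (hb v hv).2 x hx)
  · clear hv hmax hout hcard v
    induction i with
    | zero => simp [ball]
    | succ i ih =>
      have hb' : ∀ x ∈ ball out y i, x ∈ V ∧ x ∉ Z := fun x hx =>
        hb x (LL_ball_mono out y (Nat.le_succ i) hx)
      have h1 := ih hb'
      obtain ⟨v, hv, -, hout⟩ := LL_top r V Z out rk hD y i hb'
      have hcard := hD.out_card v (hb' v hv).1 (hb' v hv).2
      have h2 : r ≤ (lay out y (i + 1)).card := hcard ▸ Finset.card_le_card hout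
      have h3 : (lay out y (i + 1)).card + (ball out y i).card = (ball out y (i + 1)).card :=
        Finset.card_sdiff_add_card_eq_card (LL_ball_mono out y (Nat.le_succ i))
      rw [Nat.mul_succ]
      omega

end Pool.Agent.helper19.AR
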