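import Mathlib

/-! # AR project, module RUN -/

set_option autoImplicit false

namespace Pool.Agent.helper19.AR

/-- module RUN -/
theorem RUN (M d : ℕ) (Mk : Finset ℕ) (h : ∀ a, a + M < d → ∃ j ≤ M, a + j ∈ Mk) :
    d ≤ (M + 1) * (Mk.card + 1) := by
  classical
  -- one mark in each of the windows `[t (M + 1), (t + 1) (M + 1))`
  have h1 : ∀ t ∈ Finset.range (d / (M + 1)), ∃ m ∈ Mk, m / (M + 1) = t := by
    intro t ht
    have ht' : t < d / (M + 1) := Finset.mem_range.1 ht
    have h2 : (t + 1) * (M + 1) ≤ d := by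
      calc (t + 1) * (M + 1) ≤ (d / (M + 1)) * (M + 1) := Nat.mul_le_mul_right _ ht'
        _ ≤ d := Nat.div_mul_le_self _ _
    obtain ⟨j, hj, hm⟩ := h (t * (M + 1)) (by nlinarith)
    refine ⟨_, hm, ?_⟩
    rw [mul_comm, Nat.mul_add_div (Nat.succ_pos M), Nat.div_eq_of_lt (by omega), add_zero]
  choose! f hf hf' using h1
  have h2 : d / (M + 1) ≤ Mk.card := by
    have h3 : (Finset.range (d / (M + 1))).card ≤ Mk.card := by
      refine Finset.card_le_card_of_injOn f (fun t ht => hf t ht) ?_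
      intro a ha b hb hab
      rw [← hf' a ha, ← hf' b hb, hab]
    rwa [Finset.card_range] at h3
  have h3 : d < (d / (M + 1) + 1) * (M + 1) := by
    have := Nat.lt_mul_div_succ d (Nat.succ_pos M)
    rw [mul_comm] at this
    exact this
  calc d ≤ (d / (M + 1) + 1) * (M + 1) := h3.le
    _ ≤ (Mk.card + 1) * (M + 1) := Nat.mul_le_mul_right _ (by omega)
    _ = (M + 1) * (Mk.card + 1) := mul_comm _ _

end Pool.Agent.helper19.AR
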