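import Pool.Agent.helper19.AR.Defs2
import Pool.Agent.helper26.AR.LL

/-! # AR project, module SMs: structure of a long run of clean layers -/

set_option autoImplicit false

namespace Pool.Agent.helper19.AR

/-- enumeration of a finite set by increasing rank -/
theorem SMs_enum {α : Type} [DecidableEq α] (rk : α → ℕ) (L : Finset α) (r : ℕ) (hr : 1 ≤ r)
    (hL : L.card = r) (hinj : ∀ x ∈ L, ∀ x' ∈ L, rk x = rk x' → x = x') :
    ∃ f : ℕ → α, (∀ i < r, f i ∈ L) ∧ (∀ x ∈ L, ∃ i < r, f i = x) ∧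
      ∀ i < r, ∀ i' < r, rk (f i) < rk (f i') → i < i' := by
  classical
  have hne : L.Nonempty := Finset.card_pos.1 (by omega)
  obtain ⟨x0, hx0⟩ := hne
  have hcard : (L.image rk).card = r := by
    rw [Finset.card_image_of_injOn (fun x hx x' hx' => hinj x hx x' hx'), hL]
  have h1 : ∀ i : Fin r, ∃ x ∈ L, rk x = (L.image rk).orderEmbOfFin hcard i := fun i =>
    Finset.mem_image.1 (Finset.orderEmbOfFin_mem _ hcard i)
  choose g hg hg' using h1
  refine ⟨fun i => if h : i < r then g ⟨i, h⟩ else x0, ?_, ?_, ?_⟩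
  · intro i hi
    simp only [hi, dif_pos]
    exact hg _
  · intro x hx
    have h2 : rk x ∈ Set.range ((L.image rk).orderEmbOfFin hcard) := by
      rw [Finset.range_orderEmbOfFin]
      exact Finset.mem_coe.2 (Finset.mem_image_of_mem _ hx)
    obtain ⟨i, hi⟩ := h2
    refine ⟨i, i.2, ?_⟩
    simp only [i.2, dif_pos]
    exact hinj _ (hg _) _ hx ((hg' i).trans hi)
  · intro i hi i' hi' hlt
    simp only [hi, hi', dif_pos] at hlt
    rw [hg', hg'] at hlt
    exact ((L.image rk).orderEmbOfFin hcard).lt_iff_lt.1 hlt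

theorem SMs_dag {α β : Type} {r : ℕ} {S : Sys α β} {Z : Finset α} {R : Finset β} {st : α → β}
    {out : α → Finset α} {rk : α → ℕ} (hC : Core r S Z R st out rk) : Dag r S.V Z out rk where
  Z_sub := hC.Z_sub
  out_sub := hC.out_sub
  out_card := hC.out_card
  rk_inj := hC.rk_inj
  rk_lt := hC.rk_lt

theorem SMs_lay_ball {α : Type} [DecidableEq α] (out : α → Finset α) (y : α) (i : ℕ) :
    lay out y i ⊆ ball out y i := by
  cases i with
  | zero => exact subset_rfl
  | succ i => exact Finset.sdiff_subset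

theorem SMs_lay_not {α : Type} [DecidableEq α] (out : α → Finset α) (y : α) {i j : ℕ} (h : i < j)
    {x : α} (hx : x ∈ lay out y j) : x ∉ ball out y i := by
  obtain ⟨j, rfl⟩ : ∃ k, j = k + 1 := ⟨j - 1, by omega⟩
  exact fun hb => (Finset.mem_sdiff.1 hx).2 (LL_ball_mono out y (Nat.lt_succ_iff.1 h) hb)

theorem SMs_lay_eq {α : Type} [DecidableEq α] (out : α → Finset α) (y : α) {i j : ℕ}
    {x : α} (hx : x ∈ lay out y i) (hx' : x ∈ lay out y j) : i = j := by
  rcases lt_trichotomy i j with h | h | h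
  · exact absurd (SMs_lay_ball out y i hx) (SMs_lay_not out y h hx')
  · exact h
  · exact absurd (SMs_lay_ball out y j hx') (SMs_lay_not out y h hx)

/-- the out-neighbours of a vertex of a layer of size `r` are in this layer or in the next one -/
theorem SMs_out {α : Type} [DecidableEq α] {r : ℕ} {V Z : Finset α}
    {out : α → Finset α} {rk : α → ℕ} (hD : Dag r V Z out rk) {y : α} {i : ℕ} (hi : 1 ≤ i)
    (hb : ∀ x ∈ ball out y i, x ∈ V ∧ x ∉ Z) (hcard : (lay out y i).card = r) {z w : α}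
    (hz : z ∈ lay out y i) (hw : w ∈ out z) :
    w ∈ ball out y (i + 1) ∧ w ∉ ball out y (i - 1) ∧ rk z < rk w := by
  have hzb := SMs_lay_ball out y i hz
  have hlt := hD.rk_lt z (hb z hzb).1 (hb z hzb).2 w hw
  refine ⟨LL_out_sub out y i hzb hw, fun hwb => ?_, hlt⟩
  obtain ⟨k, rfl⟩ : ∃ k, i = k + 1 := ⟨i - 1, by omega⟩
  have h1 := (LL r V Z out rk hD y k (fun x hx => hb x (LL_ball_mono out y (Nat.le_succ k) hx))).2.1
    hcard z hz w hwb
  omega

/-- module SMs: structure -/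
theorem SMs {α β : Type} [DecidableEq α] [DecidableEq β] (r M K : ℕ) (hr : 2 ≤ r)
    (S : Sys α β) (hG : Good r S)
    (Z : Finset α) (R : Finset β) (st : α → β) (out : α → Finset α) (rk : α → ℕ)
    (Y : Finset α) (d : α → ℕ) (Ec : α → Finset α)
    (hC : Core r S Z R st out rk) (hP : Proc K S.V Z out Y d Ec)
    (y : α) (hy : y ∈ Y) (a : ℕ) (ha : 1 ≤ a) (had : a + M + 2 ≤ d y)
    (h : ∀ j ≤ M, (lay out y (a + j)).card = r ∧
      ∀ x ∈ lay out y (a + j), (∀ b ∈ R, ∀ e ∈ S.E b, x ∉ e) ∧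
        ∀ z ∈ S.V, z ∉ Z → ¬ Internal r out Y d z → x ∉ out z) :
    ∃ (v : ℕ → ℕ → α) (c : ℕ → ℕ → β) (N : ℕ → ℕ → Finset α), Lay r M S v c N := by
  have hD := SMs_dag hC
  have hball : ∀ y' ∈ Y, ∀ i, i + 1 ≤ d y' → ball out y' i ⊆ Ec y' := fun y' hy' i hi =>
    (LL_ball_mono out y' (by omega)).trans (hP.ball_sub y' hy')
  have hVZ : ∀ y' ∈ Y, ∀ i, i + 1 ≤ d y' → ∀ x ∈ ball out y' i, x ∈ S.V ∧ x ∉ Z :=
    fun y' hy' i hi x hx => hP.E_sub y' hy' x (hball y' hy' i hi hx)
  have henum : ∀ j, ∃ f : ℕ → α, j ≤ M → (∀ i < r, f i ∈ lay out y (a + j)) ∧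
      (∀ x ∈ lay out y (a + j), ∃ i < r, f i = x) ∧
      ∀ i < r, ∀ i' < r, rk (f i) < rk (f i') → i < i' := by
    intro j
    by_cases hj : j ≤ M
    · obtain ⟨f, hf⟩ := SMs_enum rk (lay out y (a + j)) r (by omega) (h j hj).1
        (fun x hx x' hx' he => hC.rk_inj x
          (hVZ y hy (a + j) (by omega) x (SMs_lay_ball out y _ hx)).1 x'
          (hVZ y hy (a + j) (by omega) x' (SMs_lay_ball out y _ hx')).1 he)
      exact ⟨f, fun _ => hf⟩
    · exact ⟨fun _ => y, fun hj' => absurd hj' hj⟩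
  choose v hv using henum
  have hmem : ∀ j ≤ M, ∀ i < r, v j i ∈ lay out y (a + j) := fun j hj => (hv j hj).1
  have hsurj : ∀ j ≤ M, ∀ x ∈ lay out y (a + j), ∃ i < r, v j i = x := fun j hj => (hv j hj).2.1
  have hmV : ∀ j ≤ M, ∀ i < r, v j i ∈ S.V ∧ v j i ∉ Z := fun j hj i hi =>
    hVZ y hy (a + j) (by omega) _ (SMs_lay_ball out y _ (hmem j hj i hi))
  -- injectivity inside a layer
  have hinj0 : ∀ j ≤ M, ∀ i < r, ∀ i' < r, v j i = v j i' → i = i' := by
    intro j hj
    have h1 : Set.SurjOn (v j) (Finset.range r : Set ℕ) (lay out y (a + j) : Set α) := by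
      intro x hx
      obtain ⟨i, hi, rfl⟩ := hsurj j hj x hx
      exact ⟨i, Finset.mem_coe.2 (Finset.mem_range.2 hi), rfl⟩
    have h2 : Set.InjOn (v j) (Finset.range r : Set ℕ) := by
      apply Finset.injOn_of_surjOn_of_card_le (v j)
        (fun i hi => hmem j hj i (Finset.mem_range.1 hi)) h1
      rw [Finset.card_range, (h j hj).1]
    intro i hi i' hi' he
    exact h2 (Finset.mem_coe.2 (Finset.mem_range.2 hi)) (Finset.mem_coe.2 (Finset.mem_range.2 hi')) he
  have hinj : ∀ j ≤ M, ∀ i < r, ∀ j' ≤ M, ∀ i' < r, v j i = v j' i' → j = j' ∧ i = i' := by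
    intro j hj i hi j' hj' i' hi' he
    have h1 := hmem j' hj' i' hi'
    rw [← he] at h1
    have h2 := SMs_lay_eq out y (hmem j hj i hi) h1
    obtain rfl : j = j' := by omega
    exact ⟨rfl, hinj0 j hj i hi i' hi' he⟩
  refine ⟨v, fun j i => st (v j i), fun j i => out (v j i), ?_⟩
  refine { v_mem := fun j hj i hi => (hmV j hj i hi).1, v_inj := hinj, c_mem := ?_, c_inj := ?_, c_E := ?_,
           N_card := ?_, N_sub := ?_, clean := ?_ }
  · intro j hj i hi
    exact (hC.st_mem _ (hmV j hj.le i hi).1 (hmV j hj.le i hi).2).1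
  · intro j hj i hi j' hj' i' hi' he
    exact hinj j hj.le i hi j' hj'.le i' hi' (hC.st_inj _ (hmV j hj.le i hi).1 (hmV j hj.le i hi).2 _
      (hmV j' hj'.le i' hi').1 (hmV j' hj'.le i' hi').2 he)
  · intro j hj i hi e
    exact hC.out_E _ (hmV j hj.le i hi).1 (hmV j hj.le i hi).2 e
  · intro j hj i hi
    exact hC.out_card _ (hmV j hj.le i hi).1 (hmV j hj.le i hi).2
  · intro j hj i hi w hw
    obtain ⟨h1, h2, h3⟩ := SMs_out hD (show 1 ≤ a + j by omega) (hVZ y hy (a + j) (by omega))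
      (h j hj.le).1 (hmem j hj.le i hi) hw
    by_cases h4 : w ∈ ball out y (a + j)
    · left
      have h5 : w ∈ lay out y (a + j) := by
        have h6 : a + j = (a + j - 1) + 1 := by omega
        rw [h6] at h4 ⊢
        exact Finset.mem_sdiff.2 ⟨h4, h2⟩
      obtain ⟨i', hi', rfl⟩ := hsurj j hj.le w h5
      exact ⟨i', hi', (hv j hj.le).2.2 i hi i' hi' h3, rfl⟩
    · right
      have h5 : w ∈ lay out y (a + (j + 1)) := Finset.mem_sdiff.2 ⟨h1, h4⟩
      obtain ⟨i', hi', rfl⟩ := hsurj (j + 1) hj w h5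
      exact ⟨i', hi', rfl⟩
  · intro b hb e he j hj1 hjM i hi hve
    have hl := hmem j hjM.le i hi
    obtain ⟨hx1, hx2⟩ := (h j hjM.le).2 _ hl
    have hbR : b ∉ R := fun hbR => hx1 b hbR e he hve
    obtain ⟨z, hzV, hzZ, rfl⟩ := hC.st_surj b hb hbR
    obtain ⟨w, hw, rfl⟩ := (hC.out_E z hzV hzZ e).1 he
    rcases Sym2.mem_iff.1 hve with h1 | h1
    · exact ⟨j, hjM, i, hi, by rw [h1]⟩
    · have hint : Internal r out Y d z := by
        by_contra hcon
        exact hx2 z hzV hzZ hcon (by rw [h1]; exact hw)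
      obtain ⟨y', hy', i', hi1, hi2, hi3, hz⟩ := hint
      obtain ⟨h2, h3, -⟩ := SMs_out hD hi1 (hVZ y' hy' i' (by omega)) hi3 hz hw
      have h4 : w ∈ Ec y' := hball y' hy' (i' + 1) (by omega) h2
      have h5 : w ∈ Ec y := by
        rw [← h1]
        exact hball y hy (a + j) (by omega) (SMs_lay_ball out y _ hl)
      have h6 : y' = y := by
        by_contra hne
        exact Finset.disjoint_left.1 (hP.disj y' hy' y hy hne) h4 h5
      subst h6
      rw [h1] at hl
      have h7 : a + j ≤ i' + 1 := by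
        by_contra hcon
        exact SMs_lay_not out y' (by omega) hl h2
      have h8 : i' ≤ a + j := by
        by_contra hcon
        exact h3 (LL_ball_mono out y' (by omega) (SMs_lay_ball out y' _ hl))
      rcases (show i' = a + (j - 1) ∨ i' = a + j by omega) with h9 | h9
      · rw [h9] at hz
        obtain ⟨i2, hi2', hi3'⟩ := hsurj (j - 1) (by omega) z hz
        exact ⟨j - 1, by omega, i2, hi2', by rw [hi3']⟩
      · rw [h9] at hz
        obtain ⟨i2, hi2', hi3'⟩ := hsurj j hjM.le z hz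
        exact ⟨j, hjM, i2, hi2', by rw [hi3']⟩

end Pool.Agent.helper19.AR
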