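import Pool.Agent.helper19.AR.Defs2
import Pool.Agent.helper26.AR.LL
import Pool.Agent.helper26.AR.RUN
import Pool.Agent.helper26.AR.SMs

/-! # AR project, module SMc: counting -/

set_option autoImplicit false

namespace Pool.Agent.helper19.AR

/-- the final arithmetic of the counting -/
theorem SMc_arith (r M K n T y k B g NI TV : ℕ) (hr : 2 ≤ r) (hK : K = 100 * r ^ 4 * (M + 1))
    (hn : 1 ≤ n) (ha : r * T + B ≤ n + r * y) (hb : n + r ≤ r * T + r * ((4 * K + 1) * k))
    (hc : T ≤ g + 2 * y + B) (hd : NI + r * g ≤ n) (he : TV ≤ 2 * r * k + r * NI)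
    (hf : T ≤ (M + 1) * (2 * y + B + TV + y)) (hg : K * y ≤ n)
    (hh : K * (4 * K + 1) * k ≤ n) : False := by
  obtain ⟨q, hq⟩ : ∃ q, q = (4 * K + 1) * k := ⟨_, rfl⟩
  have hr4 : 1 ≤ r ^ 4 := Nat.one_le_pow _ _ (by omega)
  have hK1 : 1 ≤ K := by
    rw [hK]
    exact Nat.mul_pos (Nat.mul_pos (by norm_num) hr4) (Nat.succ_pos M)
  have hkq : 2 * k ≤ q := by
    rw [hq]
    exact Nat.mul_le_mul_right _ (by omega)
  rw [← hq] at hb
  have hh' : K * q ≤ n := by
    rw [hq, ← mul_assoc]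
    exact hh
  obtain ⟨w, hw⟩ : ∃ w, w = r * q + r * y := ⟨_, rfl⟩
  have hB : B ≤ w := by omega
  have hNI : NI ≤ (r + 2) * w := by
    have h1 : r * T ≤ r * g + 2 * (r * y) + r * B := by
      calc r * T ≤ r * (g + 2 * y + B) := Nat.mul_le_mul_left _ hc
        _ = r * g + 2 * (r * y) + r * B := by ring
    have h2 : r * B ≤ r * w := Nat.mul_le_mul_left _ hB
    have h3 : (r + 2) * w = r * w + 2 * w := by ring
    rw [h3]
    omega
  have hTV : TV ≤ (r * (r + 2) + 1) * w := by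
    have h1 : 2 * r * k ≤ r * q := by
      calc 2 * r * k = r * (2 * k) := by ring
        _ ≤ r * q := Nat.mul_le_mul_left _ hkq
    have h2 : r * NI ≤ r * ((r + 2) * w) := Nat.mul_le_mul_left _ hNI
    have h3 : (r * (r + 2) + 1) * w = r * ((r + 2) * w) + w := by ring
    rw [h3]
    omega
  have hsum : 2 * y + B + TV + y ≤ 3 * r ^ 2 * w := by
    have h1 : 3 * y ≤ 2 * w := by
      have : 2 * y ≤ r * y := Nat.mul_le_mul_right _ hr
      omega
    have h2 : 2 * y + B + TV + y ≤ (r * (r + 2) + 4) * w := by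
      have h3 : (r * (r + 2) + 4) * w = (r * (r + 2) + 1) * w + w + 2 * w := by ring
      rw [h3]
      omega
    refine h2.trans (Nat.mul_le_mul_right _ ?_)
    nlinarith
  have hKw : K * w ≤ 2 * r * n := by
    have h1 : r * (K * q) ≤ r * n := Nat.mul_le_mul_left _ hh'
    have h2 : r * (K * y) ≤ r * n := Nat.mul_le_mul_left _ hg
    have h3 : K * w = r * (K * q) + r * (K * y) := by rw [hw]; ring
    have h4 : 2 * r * n = r * n + r * n := by ring
    rw [h3, h4]
    omega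
  have hKT : K * T ≤ 6 * r ^ 3 * (M + 1) * n := by
    calc K * T ≤ K * ((M + 1) * (2 * y + B + TV + y)) := Nat.mul_le_mul_left _ hf
      _ ≤ K * ((M + 1) * (3 * r ^ 2 * w)) :=
        Nat.mul_le_mul_left _ (Nat.mul_le_mul_left _ hsum)
      _ = (M + 1) * (3 * r ^ 2) * (K * w) := by ring
      _ ≤ (M + 1) * (3 * r ^ 2) * (2 * r * n) := Nat.mul_le_mul_left _ hKw
      _ = 6 * r ^ 3 * (M + 1) * n := by ring
  have hKn : K * n ≤ 6 * r ^ 4 * (M + 1) * n + r * n := by
    calc K * n ≤ K * (r * T + r * q) := Nat.mul_le_mul_left _ (by omega)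
      _ = r * (K * T) + r * (K * q) := by ring
      _ ≤ r * (6 * r ^ 3 * (M + 1) * n) + r * n :=
        Nat.add_le_add (Nat.mul_le_mul_left _ hKT) (Nat.mul_le_mul_left _ hh')
      _ = 6 * r ^ 4 * (M + 1) * n + r * n := by ring
  have hrr : r ≤ r ^ 4 * (M + 1) := by
    calc r = r ^ 1 * 1 := by ring
      _ ≤ r ^ 4 * (M + 1) := Nat.mul_le_mul (Nat.pow_le_pow_right (by omega) (by norm_num))
        (by omega)
  have hpos : 1 ≤ r ^ 4 * (M + 1) * n := by
    have : 1 ≤ r ^ 4 * (M + 1) := by omega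
    exact Nat.mul_pos this hn
  have h1 : r * n ≤ r ^ 4 * (M + 1) * n := Nat.mul_le_mul_right _ hrr
  have h2 : K * n = 100 * (r ^ 4 * (M + 1) * n) := by rw [hK]; ring
  have h3 : 6 * r ^ 4 * (M + 1) * n = 6 * (r ^ 4 * (M + 1) * n) := by ring
  rw [h2, h3] at hKn
  omega

/-- module SMc: counting -/
theorem SMc {α β : Type} [DecidableEq α] [DecidableEq β] (r M K : ℕ) (hr : 2 ≤ r)
    (hK : K = 100 * r ^ 4 * (M + 1))
    (S : Sys α β) (ℓ : ℕ) (hG : Good r S) (hℓ : S.V.card ≤ r * ℓ)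
    (Z : Finset α) (R : Finset β) (st : α → β) (out : α → Finset α) (rk : α → ℕ)
    (Y : Finset α) (d : α → ℕ) (Ec : α → Finset α)
    (hC : Core r S Z R st out rk) (hT : K * (4 * K + 1) * Z.card ≤ S.V.card)
    (hP : Proc K S.V Z out Y d Ec)
    (hd : ℓ + 1 ≤ ∑ y ∈ Y, d y + (4 * K + 1) * Z.card) :
    ∃ y ∈ Y, ∃ a, 1 ≤ a ∧ a + M + 2 ≤ d y ∧ ∀ j ≤ M, (lay out y (a + j)).card = r ∧
      ∀ x ∈ lay out y (a + j), (∀ b ∈ R, ∀ e ∈ S.E b, x ∉ e) ∧
        ∀ z ∈ S.V, z ∉ Z → ¬ Internal r out Y d z → x ∉ out z := by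
  classical
  by_contra hcon
  have hD := SMs_dag hC
  have hball : ∀ y ∈ Y, ∀ i < d y, ball out y i ⊆ Ec y := fun y hy i hi =>
    (LL_ball_mono out y (by omega)).trans (hP.ball_sub y hy)
  have hVZ : ∀ y ∈ Y, ∀ i < d y, ∀ x ∈ ball out y i, x ∈ S.V ∧ x ∉ Z :=
    fun y hy i hi x hx => hP.E_sub y hy x (hball y hy i hi hx)
  -- the index set of the layers
  set I : Finset (Σ _ : α, ℕ) := Y.sigma (fun y => Finset.range (d y)) with hI
  have hmemI : ∀ p : (Σ _ : α, ℕ), p ∈ I ↔ p.1 ∈ Y ∧ p.2 < d p.1 := fun p => by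
    rw [hI, Finset.mem_sigma, Finset.mem_range]
  set L : (Σ _ : α, ℕ) → Finset α := fun p => lay out p.1 p.2 with hL
  have hLE : ∀ p ∈ I, L p ⊆ Ec p.1 := fun p hp =>
    (SMs_lay_ball out p.1 p.2).trans (hball p.1 ((hmemI p).1 hp).1 p.2 ((hmemI p).1 hp).2)
  have hLV : ∀ p ∈ I, L p ⊆ S.V := fun p hp x hx =>
    (hP.E_sub p.1 ((hmemI p).1 hp).1 x (hLE p hp hx)).1
  have hdisj : ∀ p ∈ I, ∀ q ∈ I, ∀ x, x ∈ L p → x ∈ L q → p = q := by
    rintro ⟨y, i⟩ hp ⟨y', i'⟩ hq x hx hx'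
    have h1 : y = y' := by
      by_contra hne
      exact Finset.disjoint_left.1 (hP.disj y ((hmemI _).1 hp).1 y' ((hmemI _).1 hq).1 hne)
        (hLE _ hp hx) (hLE _ hq hx')
    subst h1
    have h2 : i = i' := SMs_lay_eq out y hx hx'
    subst h2
    rfl
  have hdisj' : ∀ J ⊆ I, (J.biUnion L).card = ∑ p ∈ J, (L p).card := fun J hJ =>
    Finset.card_biUnion fun p hp q hq hne => Finset.disjoint_left.2 fun x hx hx' =>
      hne (hdisj p (hJ hp) q (hJ hq) x hx hx')
  have hLr : ∀ p ∈ I, 1 ≤ p.2 → r ≤ (L p).card := by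
    rintro ⟨y, i⟩ hp hi
    obtain ⟨j, rfl⟩ : ∃ j, i = j + 1 := ⟨i - 1, by simp only at hi; omega⟩
    have hp' := (hmemI _).1 hp
    exact (LL r S.V Z out rk hD y j (hVZ y hp'.1 j (by have := hp'.2; simp only at this; omega))).1
  have hIcard : I.card = ∑ y ∈ Y, d y := by
    rw [hI, Finset.card_sigma]
    exact Finset.sum_congr rfl fun y _ => Finset.card_range _
  -- the classes of layers
  set I0 : Finset (Σ _ : α, ℕ) := I.filter (fun p => p.2 = 0) with hI0
  set I1 : Finset (Σ _ : α, ℕ) := I.filter (fun p => p.2 + 1 = d p.1) with hI1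
  set Bad : Finset (Σ _ : α, ℕ) := I.filter (fun p => 1 ≤ p.2 ∧ (L p).card ≠ r) with hBad
  set G : Finset (Σ _ : α, ℕ) :=
    I.filter (fun p => 1 ≤ p.2 ∧ p.2 + 2 ≤ d p.1 ∧ (L p).card = r) with hGd
  have hI0c : I0.card ≤ Y.card := by
    refine Finset.card_le_card_of_injOn (fun p => p.1)
      (fun p hp => ((hmemI p).1 (Finset.mem_filter.1 hp).1).1) ?_
    rintro ⟨y, i⟩ hp ⟨y', i'⟩ hq h
    have h1 : i = 0 := (Finset.mem_filter.1 (Finset.mem_coe.1 hp)).2
    have h2 : i' = 0 := (Finset.mem_filter.1 (Finset.mem_coe.1 hq)).2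
    have h3 : y = y' := h
    subst h1 h2 h3
    rfl
  have hI1c : I1.card ≤ Y.card := by
    refine Finset.card_le_card_of_injOn (fun p => p.1)
      (fun p hp => ((hmemI p).1 (Finset.mem_filter.1 hp).1).1) ?_
    rintro ⟨y, i⟩ hp ⟨y', i'⟩ hq h
    have h1 : i + 1 = d y := (Finset.mem_filter.1 (Finset.mem_coe.1 hp)).2
    have h2 : i' + 1 = d y' := (Finset.mem_filter.1 (Finset.mem_coe.1 hq)).2
    have h3 : y = y' := h
    subst h3
    have h4 : i = i' := by omega
    subst h4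
    rfl
  -- (a)
  have ha : r * I.card + Bad.card ≤ S.V.card + r * Y.card := by
    have h1 : ∑ p ∈ I, (r + if 1 ≤ p.2 ∧ (L p).card ≠ r then 1 else 0) ≤
        ∑ p ∈ I, ((L p).card + if p.2 = 0 then r else 0) := by
      refine Finset.sum_le_sum fun p hp => ?_
      have h2 := hLr p hp
      by_cases h0 : p.2 = 0
      · simp [h0]
      · have h3 := h2 (by omega)
        by_cases h4 : (L p).card = r
        · simp [h0, h4]
        · have h5 : 1 ≤ p.2 ∧ (L p).card ≠ r := ⟨by omega, h4⟩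
          rw [if_pos h5, if_neg h0]
          omega
    rw [Finset.sum_add_distrib, Finset.sum_add_distrib, Finset.sum_const, smul_eq_mul,
      ← Finset.card_filter, ← hdisj' I subset_rfl, ← Finset.sum_filter, Finset.sum_const,
      smul_eq_mul] at h1
    have h6 : (I.biUnion L).card ≤ S.V.card :=
      Finset.card_le_card (Finset.biUnion_subset.2 hLV)
    have h7 : I0.card * r ≤ Y.card * r := Nat.mul_le_mul_right _ hI0c
    have h8 : I.card * r + Bad.card ≤ (I.biUnion L).card + I0.card * r := h1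
    rw [mul_comm r I.card, mul_comm r Y.card]
    omega
  -- (b)
  have hb : S.V.card + r ≤ r * I.card + r * ((4 * K + 1) * Z.card) := by
    have h1 : r * (ℓ + 1) ≤ r * (I.card + (4 * K + 1) * Z.card) := by
      rw [hIcard]
      exact Nat.mul_le_mul_left _ hd
    rw [mul_add] at h1
    rw [mul_add] at h1
    omega
  -- (c)
  have hc : I.card ≤ G.card + 2 * Y.card + Bad.card := by
    have h1 : I ⊆ ((G ∪ I0) ∪ I1) ∪ Bad := by
      intro p hp
      have hp2 := ((hmemI p).1 hp).2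
      simp only [Finset.mem_union, hGd, hI0, hI1, hBad, Finset.mem_filter]
      by_cases h0 : p.2 = 0
      · exact Or.inl (Or.inl (Or.inr ⟨hp, h0⟩))
      · by_cases h2 : p.2 + 1 = d p.1
        · exact Or.inl (Or.inr ⟨hp, h2⟩)
        · by_cases h3 : (L p).card = r
          · exact Or.inl (Or.inl (Or.inl ⟨hp, by omega, by omega, h3⟩))
          · exact Or.inr ⟨hp, by omega, h3⟩
    have h2 := Finset.card_le_card h1
    have h3 := Finset.card_union_le ((G ∪ I0) ∪ I1) Bad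
    have h4 := Finset.card_union_le (G ∪ I0) I1
    have h5 := Finset.card_union_le G I0
    omega
  -- (d)
  set NI : Finset α := S.V.filter (fun z => ¬ Internal r out Y d z) with hNI
  have hdd : NI.card + r * G.card ≤ S.V.card := by
    have hGI : G ⊆ I := Finset.filter_subset _ _
    have h1 : (G.biUnion L).card = r * G.card := by
      rw [hdisj' G hGI, Finset.sum_congr rfl (fun p hp => (Finset.mem_filter.1 hp).2.2.2),
        Finset.sum_const, smul_eq_mul, mul_comm]
    have h2 : Disjoint NI (G.biUnion L) := by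
      refine Finset.disjoint_left.2 fun x hx hx' => ?_
      obtain ⟨p, hp, hxp⟩ := Finset.mem_biUnion.1 hx'
      refine (Finset.mem_filter.1 hx).2 ?_
      have h3 := (Finset.mem_filter.1 hp).2
      exact ⟨p.1, ((hmemI p).1 (hGI hp)).1, p.2, h3.1, h3.2.1, h3.2.2, hxp⟩
    rw [← h1, ← Finset.card_union_of_disjoint h2]
    exact Finset.card_le_card (Finset.union_subset (Finset.filter_subset _ _)
      (Finset.biUnion_subset.2 fun p hp => hLV p (hGI hp)))
  -- (e)
  set TV : Finset α := (R.biUnion fun b => (S.E b).biUnion Sym2.toFinset) ∪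
    (NI.filter fun z => z ∉ Z).biUnion out with hTV
  have he : TV.card ≤ 2 * r * Z.card + r * NI.card := by
    have h1 : (R.biUnion fun b => (S.E b).biUnion Sym2.toFinset).card ≤ Z.card * (r * 2) := by
      rw [← hC.R_card]
      refine Finset.card_biUnion_le_card_mul _ _ _ fun b hb => ?_
      rw [← (hG.2 b (hC.R_sub hb)).1]
      refine Finset.card_biUnion_le_card_mul _ _ _ fun e he => ?_
      rw [Sym2.card_toFinset]
      split_ifs <;> omega
    have h2 : ((NI.filter fun z => z ∉ Z).biUnion out).card ≤ NI.card * r := by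
      refine (Finset.card_biUnion_le_card_mul _ _ r fun z hz => ?_).trans
        (Nat.mul_le_mul_right _ (Finset.card_filter_le _ _))
      rw [Finset.mem_filter, hNI, Finset.mem_filter] at hz
      exact (hC.out_card z hz.1.1 hz.2).le
    calc TV.card ≤ _ := Finset.card_union_le _ _
      _ ≤ Z.card * (r * 2) + NI.card * r := Nat.add_le_add h1 h2
      _ = 2 * r * Z.card + r * NI.card := by ring
  -- the marks
  set MT : Finset (Σ _ : α, ℕ) := I.filter (fun p => ∃ x ∈ TV, x ∈ L p) with hMT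
  have hMTc : MT.card ≤ TV.card := by
    have h1 : ∀ p ∈ MT, ∃ x, x ∈ TV ∧ x ∈ L p := fun p hp => by
      obtain ⟨x, hx, hx'⟩ := (Finset.mem_filter.1 hp).2
      exact ⟨x, hx, hx'⟩
    by_cases hY : MT.Nonempty
    · obtain ⟨p0, -⟩ := hY
      have : Nonempty α := ⟨p0.1⟩
      choose! f hf using h1
      refine Finset.card_le_card_of_injOn f (fun p hp => (hf p hp).1) ?_
      intro p hp q hq h
      refine hdisj p (Finset.mem_filter.1 hp).1 q (Finset.mem_filter.1 hq).1 (f p) (hf p hp).2 ?_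
      rw [h]
      exact (hf q hq).2
    · rw [Finset.not_nonempty_iff_eq_empty] at hY
      rw [hY]
      exact Nat.zero_le _
  set Mk : Finset (Σ _ : α, ℕ) := ((I0 ∪ I1) ∪ Bad) ∪ MT with hMk
  have hMkc : Mk.card ≤ 2 * Y.card + Bad.card + TV.card := by
    have h3 := Finset.card_union_le ((I0 ∪ I1) ∪ Bad) MT
    have h4 := Finset.card_union_le (I0 ∪ I1) Bad
    have h5 := Finset.card_union_le I0 I1
    rw [hMk]
    omega
  -- every run of `M + 1` layers contains a mark
  have hrun : ∀ y ∈ Y, ∀ a, a + M < d y →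
      ∃ j ≤ M, a + j ∈ (Finset.range (d y)).filter (fun i => (⟨y, i⟩ : (Σ _ : α, ℕ)) ∈ Mk) := by
    intro y hy a haM
    by_contra hno
    have hno' : ∀ j ≤ M, (⟨y, a + j⟩ : (Σ _ : α, ℕ)) ∉ Mk := fun j hj hmem =>
      hno ⟨j, hj, Finset.mem_filter.2 ⟨Finset.mem_range.2 (by omega), hmem⟩⟩
    have hin : ∀ j ≤ M, (⟨y, a + j⟩ : (Σ _ : α, ℕ)) ∈ I := fun j hj =>
      (hmemI _).2 ⟨hy, by simp only; omega⟩
    have hn0 : ∀ j ≤ M, a + j ≠ 0 := fun j hj h0 =>
      hno' j hj (Finset.mem_union_left _ (Finset.mem_union_left _ (Finset.mem_union_left _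
        (Finset.mem_filter.2 ⟨hin j hj, h0⟩))))
    have hn1 : ∀ j ≤ M, a + j + 1 ≠ d y := fun j hj h0 =>
      hno' j hj (Finset.mem_union_left _ (Finset.mem_union_left _ (Finset.mem_union_right _
        (Finset.mem_filter.2 ⟨hin j hj, h0⟩))))
    have hn2 : ∀ j ≤ M, (lay out y (a + j)).card = r := fun j hj => by
      by_contra h0
      exact hno' j hj (Finset.mem_union_left _ (Finset.mem_union_right _
        (Finset.mem_filter.2 ⟨hin j hj, by have := hn0 j hj; simp only; omega, h0⟩)))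
    have hn3 : ∀ j ≤ M, ∀ x ∈ lay out y (a + j), x ∉ TV := fun j hj x hx hx' =>
      hno' j hj (Finset.mem_union_right _ (Finset.mem_filter.2 ⟨hin j hj, x, hx', hx⟩))
    refine hcon ⟨y, hy, a, ?_, ?_, fun j hj => ⟨hn2 j hj, fun x hx => ⟨?_, ?_⟩⟩⟩
    · have := hn0 0 (Nat.zero_le _)
      omega
    · have := hn1 M le_rfl
      omega
    · intro b hb e he hxe
      refine hn3 j hj x hx (Finset.mem_union_left _ (Finset.mem_biUnion.2 ⟨b, hb,
        Finset.mem_biUnion.2 ⟨e, he, Sym2.mem_toFinset.2 hxe⟩⟩))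
    · intro z hz hzZ hint hxz
      exact hn3 j hj x hx (Finset.mem_union_right _ (Finset.mem_biUnion.2 ⟨z,
        Finset.mem_filter.2 ⟨Finset.mem_filter.2 ⟨hz, hint⟩, hzZ⟩, hxz⟩))
  -- (f)
  have hf : I.card ≤ (M + 1) * (2 * Y.card + Bad.card + TV.card + Y.card) := by
    have h1 : ∑ y ∈ Y, ((Finset.range (d y)).filter
        (fun i => (⟨y, i⟩ : (Σ _ : α, ℕ)) ∈ Mk)).card ≤ Mk.card := by
      rw [← Finset.card_sigma]
      refine Finset.card_le_card fun p hp => ?_
      rw [Finset.mem_sigma, Finset.mem_filter] at hp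
      exact hp.2.2
    calc I.card = ∑ y ∈ Y, d y := hIcard
      _ ≤ ∑ y ∈ Y, (M + 1) * (((Finset.range (d y)).filter
        (fun i => (⟨y, i⟩ : (Σ _ : α, ℕ)) ∈ Mk)).card + 1) :=
          Finset.sum_le_sum fun y hy => RUN M (d y) _ (hrun y hy)
      _ = (M + 1) * (∑ y ∈ Y, ((Finset.range (d y)).filter
        (fun i => (⟨y, i⟩ : (Σ _ : α, ℕ)) ∈ Mk)).card + Y.card) := by
          rw [← Finset.mul_sum, Finset.sum_add_distrib, Finset.sum_const, smul_eq_mul, mul_one]
      _ ≤ (M + 1) * (2 * Y.card + Bad.card + TV.card + Y.card) :=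
          Nat.mul_le_mul_left _ (Nat.add_le_add_right (h1.trans hMkc) _)
  -- (g)
  have hg : K * Y.card ≤ S.V.card := by
    have h1 : (Y.biUnion Ec).card = ∑ y ∈ Y, (Ec y).card :=
      Finset.card_biUnion fun y hy y' hy' hne => hP.disj y hy y' hy' hne
    have h2 : (Y.biUnion Ec).card ≤ S.V.card :=
      Finset.card_le_card (Finset.biUnion_subset.2 fun y hy x hx => (hP.E_sub y hy x hx).1)
    have h3 : Y.card * K ≤ ∑ y ∈ Y, (Ec y).card := by
      rw [← smul_eq_mul]
      exact Finset.card_nsmul_le_sum _ _ _ hP.E_card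
    rw [mul_comm]
    omega
  have hn : 1 ≤ S.V.card := by
    obtain ⟨z, hz⟩ := hC.Z_ne
    exact Finset.card_pos.2 ⟨z, hC.Z_sub hz⟩
  exact SMc_arith r M K S.V.card I.card Y.card Z.card Bad.card G.card NI.card TV.card hr hK hn ha hb
    hc hdd he hf hg hT

end Pool.Agent.helper19.AR
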